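import Mathlib

set_option autoImplicit false
open Set Metric Filter Topology ZeroAtInfty
open scoped RealInnerProductSpace

namespace Pool.Agent.H.MP_826cdb_an

abbrev I : Type := (Bool × ℕ) × ℕ
abbrev X0 : Type := C₀(I, ℝ)
abbrev H : Type := lp (fun _ : ℕ => ℝ) 2

noncomputable def mk (g : I → ℝ) (h : Tendsto g cofinite (𝓝 0)) : X0 where
  toFun := g
  continuous_toFun := continuous_of_discreteTopology
  zero_at_infty' := by rwa [cocompact_eq_cofinite]

theorem tend (x : X0) : Tendsto x cofinite (𝓝 0) := by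
  rw [← cocompact_eq_cofinite]; exact x.zero_at_infty'

noncomputable def e (n : I) : X0 := mk (Pi.single n 1) (by
  refine tendsto_const_nhds.congr' ?_
  filter_upwards [eventually_cofinite_ne n] with k hk
  rw [Pi.single_eq_of_ne hk])

theorem e_apply (n k : I) : e n k = if k = n then 1 else 0 := by
  change (Pi.single n (1 : ℝ) : I → ℝ) k = _
  rw [Pi.single_apply]

theorem nle (x : X0) {C : ℝ} (h : ∀ k, |x k| ≤ C) : ‖x‖ ≤ C :=
  (BoundedContinuousFunction.norm_le (f := x.toBCF) ((abs_nonneg _).trans (h default))).2 h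

noncomputable def ev (n : I) : X0 →L[ℝ] ℝ :=
  LinearMap.mkContinuous
    { toFun := fun f => f n
      map_add' := fun _ _ => rfl
      map_smul' := fun _ _ => rfl } 1 fun f => by
    rw [one_mul]
    exact f.toBCF.norm_coe_le_norm n

theorem ev_apply (n : I) (f : X0) : ev n f = f n := rfl

theorem sum_ap (F : Finset I) (c : I → ℝ) (k : I) :
    (∑ n ∈ F, c n • e n) k = if k ∈ F then c k else 0 := by
  rw [← ev_apply, map_sum]
  simp only [map_smul, ev_apply, e_apply, smul_eq_mul, mul_ite, mul_one, mul_zero]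
  rw [Finset.sum_ite_eq]

theorem sdual (φ : X0 →L[ℝ] ℝ) : Summable fun n => φ (e n) := by
  refine Summable.of_abs (summable_of_sum_le (c := ‖φ‖) (fun n => abs_nonneg _) fun F => ?_)
  have h1 : ∑ n ∈ F, |φ (e n)| = φ (∑ n ∈ F, (SignType.sign (φ (e n)) : ℝ) • e n) := by
    rw [map_sum]
    refine Finset.sum_congr rfl fun n _ => ?_
    rw [map_smul, smul_eq_mul, sign_mul_self]
  have h2 : ‖∑ n ∈ F, (SignType.sign (φ (e n)) : ℝ) • e n‖ ≤ 1 := nle _ fun k => by
    rw [sum_ap]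
    split_ifs
    · rcases lt_trichotomy (φ (e k)) 0 with h | h | h <;> simp [h]
    · simp
  rw [h1]
  exact ((le_abs_self _).trans (φ.le_opNorm _)).trans (mul_le_of_le_one_right φ.opNorm_nonneg h2)

theorem rep (φ : X0 →L[ℝ] ℝ) (x : X0) : HasSum (fun n => x n * φ (e n)) (φ x) := by
  have : HasSum (fun n => x n • e n) x := by
    refine Metric.tendsto_nhds.2 fun ε hε => ?_
    have h1 := Metric.tendsto_nhds.1 (tend x) _ (half_pos hε)
    rw [eventually_cofinite] at h1
    refine eventually_atTop.2 ⟨h1.toFinset, fun F hF => ?_⟩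
    rw [dist_eq_norm]
    refine (nle (C := ε / 2) _ fun k => ?_).trans_lt (half_lt_self hε)
    rw [ZeroAtInftyContinuousMap.sub_apply, sum_ap]
    split_ifs with h
    · simp [hε.le, half_pos hε |>.le]
    · have : ¬ ¬ dist (x k) 0 < ε / 2 := fun h2 => h (hF (h1.mem_toFinset.2 h2))
      simpa using (not_not.1 this).le
  simpa using this.mapL φ

theorem exg {V : Type*} [NormedAddCommGroup V] [NormedSpace ℝ V] (v : I → V →L[ℝ] ℝ)
    (hv : ∀ n, ‖v n‖ ≤ 1) (g : I → ℝ) (hg : Summable g) :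
    ∃ f : V →L[ℝ] ℝ, ∀ x, HasSum (fun n => g n * v n x) (f x) := by
  have h : Summable fun n => g n • v n := Summable.of_norm_bounded hg.abs fun n => by
    rw [norm_smul, Real.norm_eq_abs]
    exact mul_le_of_le_one_right (abs_nonneg _) (hv n)
  exact ⟨∑' n, g n • v n, fun x => h.hasSum.mapL (ContinuousLinearMap.apply ℝ ℝ x)⟩

theorem exd (g : I → ℝ) (hg : Summable g) : ∃ f : X0 →L[ℝ] ℝ, ∀ k, f (e k) = g k := by
  obtain ⟨f, hf⟩ := exg ev (fun n => LinearMap.mkContinuous_norm_le _ zero_le_one _) g hg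
  refine ⟨f, fun k => ?_⟩
  have := (hf (e k)).tsum_eq
  rw [tsum_eq_single k (fun n hn => by simp [ev_apply, e_apply, hn])] at this
  simpa [ev_apply, e_apply] using this.symm

theorem tele (s : ℕ → ℝ) (hs : Tendsto s atTop (𝓝 0)) (h : Summable fun n => s (n + 1) - s n) :
    HasSum (fun n => s (n + 1) - s n) (-s 0) := by
  rw [h.hasSum_iff_tendsto_nat]
  simpa only [Finset.sum_range_sub, zero_sub] using hs.sub_const (s 0)

theorem path (x : X0) (f : X0 →L[ℝ] ℝ)
    (h : ∀ i m, x (i, m) - x (i, m + 1) + f (e (i, m)) + f (e (i, m + 1)) = 0) :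
    Summable (fun i => (x (i, 0) - f (e (i, 0))) / 2) ∧
      HasSum (fun i => -((x (i, 0) - f (e (i, 0))) / 2) ^ 2) (f x) := by
  have h1 : ∀ i, Tendsto (fun n => (x (i, n) - f (e (i, n))) / 2) atTop (𝓝 0) := fun i => by
    have : Tendsto (fun n : ℕ => ((i, n) : I)) atTop cofinite :=
      Nat.cofinite_eq_atTop ▸ (Prod.mk_right_injective i).tendsto_cofinite
    simpa using (((tend x).comp this).sub ((sdual f).tendsto_cofinite_zero.comp this)).div_const 2
  constructor
  · refine ((sdual f).hasSum.prod_fiberwise (g := fun i => -((x (i, 0) - f (e (i, 0))) / 2))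
      fun i => ?_).summable.of_neg
    have e1 : (fun n => f (e (i, n))) = fun n => (x (i, n + 1) - f (e (i, n + 1))) / 2
        - (x (i, n) - f (e (i, n))) / 2 := funext fun n => by linarith [h i n]
    have := (sdual f).prod_factor i
    rw [e1] at this ⊢
    exact tele _ (h1 i) this
  · refine (rep f x).prod_fiberwise fun i => ?_
    have e1 : (fun n => x (i, n) * f (e (i, n))) = fun n =>
        ((x (i, n + 1) - f (e (i, n + 1))) / 2) ^ 2
        - ((x (i, n) - f (e (i, n))) / 2) ^ 2 := funext fun n => by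
      rw [show x (i, n + 1) - f (e (i, n + 1)) = x (i, n) + f (e (i, n)) by linarith [h i n]]
      ring
    have := (rep f x).summable.prod_factor i
    rw [e1] at this ⊢
    exact tele (fun n => ((x (i, n) - f (e (i, n))) / 2) ^ 2) (by simpa using (h1 i).pow 2) this

def D : Submodule ℝ H where
  carrier := {h | Summable fun n => h n}
  add_mem' := fun ha hb => ha.add hb
  zero_mem' := summable_zero
  smul_mem' := fun c _ h => h.mul_left c

def W : Submodule ℝ ((X0 × (X0 →L[ℝ] ℝ)) × (Bool → H)) where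
  carrier := {w | (∀ i m, w.1.1 (i, m) - w.1.1 (i, m + 1) + w.1.2 (e (i, m))
    + w.1.2 (e (i, m + 1)) = 0) ∧ ∀ i : Bool × ℕ, w.2 i.1 i.2 = (w.1.1 (i, 0) - w.1.2 (e (i, 0))) / 2}
  add_mem' := fun {a b} ha hb => ⟨fun i m => by
    have := ha.1 i m; have := hb.1 i m
    simp only [Prod.fst_add, Prod.snd_add, ZeroAtInftyContinuousMap.add_apply, add_apply]
    linarith, fun i => by
    have := ha.2 i; have := hb.2 i
    simp only [Prod.fst_add, Prod.snd_add, ZeroAtInftyContinuousMap.add_apply, add_apply,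
      Pi.add_apply, lp.coeFn_add]
    linarith⟩
  zero_mem' := ⟨fun i m => by simp, fun i => by simp⟩
  smul_mem' := fun c a ha => ⟨fun i m => by
    have := ha.1 i m
    simp only [Prod.smul_fst, Prod.smul_snd, ZeroAtInftyContinuousMap.smul_apply, smul_apply,
      smul_eq_mul]
    linear_combination c * this, fun i => by
    have := ha.2 i
    simp only [Prod.smul_fst, Prod.smul_snd, ZeroAtInftyContinuousMap.smul_apply, smul_apply,
      smul_eq_mul, Pi.smul_apply, lp.coeFn_smul]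
    linear_combination c * this⟩

theorem hsq (h : H) : HasSum (fun n => h n ^ 2) (‖h‖ ^ 2) := by
  rw [← real_inner_self_eq_norm_sq]
  simpa [sq] using lp.hasSum_inner (𝕜 := ℝ) h h

theorem W1 (w : (X0 × (X0 →L[ℝ] ℝ)) × (Bool → H)) (hw : w ∈ W) : (∀ b, w.2 b ∈ D) ∧
    w.1.2 w.1.1 = -(‖w.2 false‖ ^ 2 + ‖w.2 true‖ ^ 2) := by
  obtain ⟨h1, h2⟩ := path _ _ hw.1
  simp only [← hw.2] at h1 h2
  refine ⟨fun b => h1.prod_factor b, ?_⟩
  have := (h2.prod_fiberwise fun b => (hsq (w.2 b)).neg).unique (hasSum_fintype _)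
  rw [this, Fintype.sum_bool]; ring

theorem W2 (s : Bool → H) (hs : ∀ b, s b ∈ D) : ∃ p, (p, s) ∈ W := by
  have h1 : Summable fun i : Bool × ℕ => s i.1 i.2 :=
    Summable.of_abs ((summable_prod_of_nonneg fun _ => abs_nonneg _).2
      ⟨fun b => Summable.abs (hs b), Summable.of_finite⟩)
  have h2 : Summable fun k : I => if k.2 = 0 then s k.1.1 k.1.2 else 0 := by
    rw [← (Prod.mk_left_injective (α := Bool × ℕ) (0 : ℕ)).summable_iff]
    · exact h1
    · rintro ⟨i, m⟩ h
      exact if_neg fun hm => h ⟨i, Prod.ext rfl hm.symm⟩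
  obtain ⟨f, hf⟩ := exd _ h2.neg
  refine ⟨(mk _ h2.tendsto_cofinite_zero, f), fun i m => ?_, fun i => ?_⟩
  · show (if m = 0 then s i.1 i.2 else 0) - (if m + 1 = 0 then s i.1 i.2 else 0) + f _ + f _ = 0
    rw [hf, hf]; simp
  · show s i.1 i.2 = ((if 0 = 0 then s i.1 i.2 else 0) - f _) / 2
    rw [hf]; simp

theorem W3 (z : X0 × (X0 →L[ℝ] ℝ)) (h : ∀ n, (n, 0) ∈ W → z.2 n.1 + n.2 z.1 = 0) :
    ∃ s, (z, s) ∈ W := by
  have h1 : ∀ i m, z.1 (i, m) - z.1 (i, m + 1) + z.2 (e (i, m)) + z.2 (e (i, m + 1)) = 0 :=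
    fun i m => by
      have := h (e (i, m) + e (i, m + 1), ev (i, m) - ev (i, m + 1)) ⟨fun j n => by
        simp only [ZeroAtInftyContinuousMap.add_apply, sub_apply, ev_apply, e_apply, Prod.mk.injEq,
          add_left_inj, eq_comm (a := i), eq_comm (a := m), eq_comm (a := m + 1)]
        ring, fun j => by
        simp [ev_apply, e_apply, eq_comm (a := i), eq_comm (a := m)]⟩
      simp only [map_add, sub_apply, ev_apply] at this
      linarith
  obtain ⟨-, h2⟩ := path _ _ h1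
  refine ⟨fun b => ⟨fun j => (z.1 ((b, j), 0) - z.2 (e ((b, j), 0))) / 2, memℓp_gen ?_⟩, h1,
    fun i => rfl⟩
  simpa only [ENNReal.toReal_ofNat, Real.rpow_ofNat, Real.norm_eq_abs, sq_abs]
    using (h2.summable.prod_factor b).of_neg

def IF {Z : Type} [NormedAddCommGroup Z] [NormedSpace ℝ Z]
    (V : Submodule ℝ ((Z × (Z →L[ℝ] ℝ)) × (Bool → H))) : Prop :=
  (∀ w ∈ V, (∀ b, w.2 b ∈ D) ∧ w.1.2 w.1.1 = -(‖w.2 false‖ ^ 2 + ‖w.2 true‖ ^ 2)) ∧
  (∀ s : Bool → H, (∀ b, s b ∈ D) → ∃ p, (p, s) ∈ V) ∧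
  ∀ z : Z × (Z →L[ℝ] ℝ), (∀ n, (n, 0) ∈ V → z.2 n.1 + n.2 z.1 = 0) → ∃ s, (z, s) ∈ V

theorem iface : ∃ (Z : Type) (_ : NormedAddCommGroup Z) (_ : NormedSpace ℝ Z) (_ : CompleteSpace Z)
    (V : Submodule ℝ ((Z × (Z →L[ℝ] ℝ)) × (Bool → H))), IF V :=
  ⟨X0, inferInstance, inferInstance, inferInstance, W, W1, W2, W3⟩

end Pool.Agent.H.MP_826cdb_an
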