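import Pool.Agent.H.MP_826cdb_an.A

set_option autoImplicit false
open Set Metric Filter Topology ContinuousLinearMap
open scoped RealInnerProductSpace

namespace Pool.Agent.H.MP_826cdb_an

section
variable {Y Z : Type} [NormedAddCommGroup Y] [NormedSpace ℝ Y] [NormedAddCommGroup Z]
  [NormedSpace ℝ Z] {V : Submodule ℝ ((Z × (Z →L[ℝ] ℝ)) × (Bool → H))}

noncomputable def Q (s : Bool → H) : ℝ := ‖s false‖ ^ 2 + ‖s true‖ ^ 2

def LA (V : Submodule ℝ ((Z × (Z →L[ℝ] ℝ)) × (Bool → H))) (M : Set ((Bool → H) × Y × (Y →L[ℝ] ℝ))) : Set ((Z × Y) × (Z × Y →L[ℝ] ℝ)) :=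
  {a | ∃ s, ((a.1.1, a.2.comp (inl ℝ Z Y)), s) ∈ V ∧ (s, a.1.2, a.2.comp (inr ℝ Z Y)) ∈ M}

theorem spl (f : Z × Y →L[ℝ] ℝ) (x : Z × Y) :
    f x = f.comp (inl ℝ Z Y) x.1 + f.comp (inr ℝ Z Y) x.2 := by
  rw [comp_apply, comp_apply, ← map_add]; simp

theorem qf (hV : IF V) {a b : (Z × Y) × (Z × Y →L[ℝ] ℝ)} {s t : Bool → H}
    (ha : ((a.1.1, a.2.comp (inl ℝ Z Y)), s) ∈ V) (hb : ((b.1.1, b.2.comp (inl ℝ Z Y)), t) ∈ V) :
    (a.2 - b.2) (a.1 - b.1) = -Q (s - t)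
      + (a.2.comp (inr ℝ Z Y) - b.2.comp (inr ℝ Z Y)) (a.1.2 - b.1.2) := by
  rw [spl, sub_comp, sub_comp]
  congr 1
  exact (hV.1 _ (V.sub_mem ha hb)).2

theorem exl (hV : IF V) (m : (Bool → H) × Y × (Y →L[ℝ] ℝ)) (h : ∀ b, m.1 b ∈ D) :
    ∃ a : (Z × Y) × (Z × Y →L[ℝ] ℝ), ((a.1.1, a.2.comp (inl ℝ Z Y)), m.1) ∈ V ∧
      a.1.2 = m.2.1 ∧ a.2.comp (inr ℝ Z Y) = m.2.2 := by
  obtain ⟨p, hp⟩ := hV.2.1 m.1 h
  exact ⟨((p.1, m.2.1), p.2.coprod m.2.2), by simpa using hp, rfl, by simp⟩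

theorem LA_mono (hV : IF V) (M : Set ((Bool → H) × Y × (Y →L[ℝ] ℝ)))
    (h : ∀ m ∈ M, ∀ m' ∈ M, Q (m.1 - m'.1) ≤ (m.2.2 - m'.2.2) (m.2.1 - m'.2.1)) :
    ∀ a ∈ LA V M, ∀ b ∈ LA V M, 0 ≤ (a.2 - b.2) (a.1 - b.1) := by
  rintro a ⟨s, h1, h2⟩ b ⟨t, h3, h4⟩
  rw [qf hV h1 h3]
  linarith [h _ h2 _ h4]

theorem LA_max (hV : IF V) (M : Set ((Bool → H) × Y × (Y →L[ℝ] ℝ))) (hne : ∃ m ∈ M, ∀ b, m.1 b ∈ D)
    (h : ∀ z : (Bool → H) × Y × (Y →L[ℝ] ℝ), (∀ b, z.1 b ∈ D) → (∀ m ∈ M, (∀ b, m.1 b ∈ D) →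
      Q (z.1 - m.1) ≤ (z.2.2 - m.2.2) (z.2.1 - m.2.1)) → z ∈ M)
    (z : (Z × Y) × (Z × Y →L[ℝ] ℝ)) (hz : ∀ a ∈ LA V M, 0 ≤ (z.2 - a.2) (z.1 - a.1)) :
    z ∈ LA V M := by
  obtain ⟨m, hm, hD⟩ := hne
  obtain ⟨a, a1, a2, a3⟩ := exl hV m hD
  obtain ⟨s, hs⟩ := hV.2.2 ((z.1 - a.1).1, (z.2 - a.2).comp (inl ℝ Z Y)) fun n hn => by
    have h0 : n.2 n.1 = 0 := by simpa using (hV.1 _ hn).2
    have h1 : ∀ c : ℝ, 0 ≤ (z.2 - a.2) (z.1 - a.1)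
        - c * ((z.2 - a.2) (n.1, 0) + n.2 (z.1 - a.1).1) := fun c => by
      have := hz (a.1 + c • (n.1, 0), a.2 + c • n.2.comp (fst ℝ Z Y)) ⟨m.1, by
        have e : (a.2 + c • n.2.comp (fst ℝ Z Y)).comp (inl ℝ Z Y)
          = a.2.comp (inl ℝ Z Y) + c • n.2 := ContinuousLinearMap.ext fun x => by simp
        simpa [e, Prod.add_def] using V.add_mem a1 (V.smul_mem c hn), by
        have e : (a.2 + c • n.2.comp (fst ℝ Z Y)).comp (inr ℝ Z Y) = m.2.2 :=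
          ContinuousLinearMap.ext fun x => by simp [← a3]
        simpa [e, a2] using hm⟩
      dsimp only at this
      rw [← sub_sub, ← sub_sub, _root_.sub_apply, map_sub (z.2 - a.2), map_smul] at this
      simp only [_root_.smul_apply, comp_apply, coe_fst', Prod.fst_sub, Prod.smul_fst, map_sub n.2,
        map_smul, smul_eq_mul, h0] at this ⊢
      linarith
    by_contra hc
    replace hc : (z.2 - a.2) (n.1, 0) + n.2 (z.1 - a.1).1 ≠ 0 := hc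
    have := h1 (((z.2 - a.2) (z.1 - a.1) + 1) / ((z.2 - a.2) (n.1, 0) + n.2 (z.1 - a.1).1))
    rw [div_mul_cancel₀ _ hc] at this
    linarith
  have h1 : ((z.1.1, z.2.comp (inl ℝ Z Y)), s + m.1) ∈ V := by
    simpa [sub_comp] using V.add_mem hs a1
  refine ⟨_, h1, h _ (hV.1 _ h1).1 fun m' hm' hD' => ?_⟩
  obtain ⟨b, b1, b2, b3⟩ := exl hV m' hD'
  have := hz b ⟨_, b1, by rw [b2, b3]; exact hm'⟩
  rw [qf hV h1 b1, b2, b3] at this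
  linarith

end

noncomputable def fn (r : H) (τ : ℝ) : H × ℝ →L[ℝ] ℝ :=
  (innerSL ℝ r).comp (fst ℝ H ℝ) + τ • snd ℝ H ℝ

theorem fn_ap (r : H) (τ : ℝ) (p : H × ℝ) : fn r τ p = ⟪r, p.1⟫ + τ * p.2 := rfl

theorem fn_ex (ψ : H × ℝ →L[ℝ] ℝ) : ∃ r τ, ψ = fn r τ := by
  refine ⟨(InnerProductSpace.toDual ℝ H).symm (ψ.comp (inl ℝ H ℝ)), ψ (0, 1),
    ContinuousLinearMap.ext fun p => ?_⟩
  rw [fn_ap, InnerProductSpace.toDual_symm_apply, comp_apply, mul_comm, ← smul_eq_mul, ← map_smul,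
    ← map_add]
  simp

theorem den (Z : Submodule ℝ H) (h : ∀ j c, lp.single 2 j c ∈ Z) : Dense (Z : Set H) := fun x =>
  mem_closure_of_tendsto (lp.hasSum_single (by simp) x)
    (Eventually.of_forall fun _ => Z.sum_mem fun _ _ => h _ _)

theorem ssum (g : ℕ → ℝ) (j : ℕ) (c : ℝ) :
    Summable fun n => g n * (lp.single 2 j c : H) n :=
  summable_of_ne_finset_zero (s := {j}) fun n hn => by
    rw [lp.single_apply_ne _ _ _ (by simpa using hn), mul_zero]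

theorem Dd : Dense (D : Set H) := den D fun j c => (ssum (fun _ => 1) j c).congr fun _ => one_mul _

def M1 (u : H) : Set ((Bool → H) × (H × ℝ) × (H × ℝ →L[ℝ] ℝ)) :=
  {m | ∃ α τ, (τ ≤ -‖α - u‖ ^ 2 ∧ m = (fun b => cond b 0 α, (α, 0), fn α τ)) ∨
    (‖α‖ ^ 2 + 2 * ⟪u, α⟫ ≤ τ ∧ m = (fun b => cond b α 0, (α, 1), fn α τ))}

theorem M1_mono (u : H) : ∀ m ∈ M1 u, ∀ m' ∈ M1 u,
    Q (m.1 - m'.1) ≤ (m.2.2 - m'.2.2) (m.2.1 - m'.2.1) := by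
  rintro _ ⟨α, τ, ⟨h, rfl⟩ | ⟨h, rfl⟩⟩ _ ⟨β, ρ, ⟨h', rfl⟩ | ⟨h', rfl⟩⟩ <;>
  have h1 := sq_nonneg ‖α - u - β‖ <;> have h2 := sq_nonneg ‖β - u - α‖ <;>
  simp only [Q, Pi.sub_apply, cond_true, cond_false, _root_.sub_apply, fn_ap, Prod.fst_sub,
    Prod.snd_sub, ← real_inner_self_eq_norm_sq, inner_sub_left, inner_sub_right, inner_zero_left,
    inner_zero_right, real_inner_comm α β, real_inner_comm α u, real_inner_comm β u] at * <;>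
  linarith

theorem M1_max (u : H) (hu : u ∉ D) (z : (Bool → H) × (H × ℝ) × (H × ℝ →L[ℝ] ℝ))
    (hD : ∀ b, z.1 b ∈ D) (h : ∀ m ∈ M1 u, (∀ b, m.1 b ∈ D) →
      Q (z.1 - m.1) ≤ (z.2.2 - m.2.2) (z.2.1 - m.2.1)) : z ∈ M1 u := by
  obtain ⟨s, ⟨p, t⟩, ψ⟩ := z
  obtain ⟨r, τ, rfl⟩ := fn_ex ψ
  have a0 : ∀ α ∈ D, ∀ ρ, ρ ≤ -‖α - u‖ ^ 2 → ‖s false - α‖ ^ 2 + ‖s true‖ ^ 2
      ≤ ⟪r - α, p - α⟫ + (τ - ρ) * t := fun α hα ρ hρ => by
    have := h _ ⟨α, ρ, Or.inl ⟨hρ, rfl⟩⟩ (by rintro (_ | _); exacts [hα, D.zero_mem])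
    simp only [Q, Pi.sub_apply, cond_true, cond_false, _root_.sub_apply, fn_ap, Prod.fst_sub,
      Prod.snd_sub, sub_zero] at this
    rw [inner_sub_left]; linarith
  have a1 : ∀ α ∈ D, ∀ ρ, ‖α‖ ^ 2 + 2 * ⟪u, α⟫ ≤ ρ → ‖s false‖ ^ 2 + ‖s true - α‖ ^ 2
      ≤ ⟪r - α, p - α⟫ + (τ - ρ) * (t - 1) := fun α hα ρ hρ => by
    have := h _ ⟨α, ρ, Or.inr ⟨hρ, rfl⟩⟩ (by rintro (_ | _); exacts [D.zero_mem, hα])
    simp only [Q, Pi.sub_apply, cond_true, cond_false, _root_.sub_apply, fn_ap, Prod.fst_sub,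
      Prod.snd_sub, sub_zero] at this
    rw [inner_sub_left]; linarith
  have b0 : ∀ α, ‖s false - α‖ ^ 2 + ‖s true‖ ^ 2 ≤ ⟪r - α, p - α⟫ + (τ + ‖α - u‖ ^ 2) * t :=
    fun α => Dense.induction Dd (fun α hα => by simpa using a0 α hα _ le_rfl)
      (isClosed_le (by fun_prop) (by fun_prop)) α
  have b1 : ∀ α, ‖s false‖ ^ 2 + ‖s true - α‖ ^ 2
      ≤ ⟪r - α, p - α⟫ + (τ - (‖α‖ ^ 2 + 2 * ⟪u, α⟫)) * (t - 1) :=
    fun α => Dense.induction Dd (fun α hα => a1 α hα _ le_rfl)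
      (isClosed_le (by fun_prop) (by fun_prop)) α
  have lin : ∀ A B c : ℝ, (∀ x, c ≤ x → 0 ≤ A + x * B) → 0 ≤ B := fun A B c hh => by
    by_contra hc
    have := hh (max c ((A + 1) / -B)) (le_max_left _ _)
    have h2 := mul_le_mul_of_nonpos_right (le_max_right c ((A + 1) / -B)) (not_le.1 hc).le
    rw [div_neg, neg_mul, div_mul_cancel₀ _ (not_le.1 hc).ne] at h2
    linarith
  have t0 : 0 ≤ t := lin (⟪r - 0, p - 0⟫ + τ * t) t (‖0 - u‖ ^ 2) fun x hx => by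
    have := a0 0 D.zero_mem (-x) (by linarith)
    nlinarith [sq_nonneg ‖s false - 0‖, sq_nonneg ‖s true‖]
  have t1 : 0 ≤ 1 - t := lin (⟪r - 0, p - 0⟫ + τ * (t - 1)) (1 - t) _ fun x hx => by
    have := a1 0 D.zero_mem x hx
    nlinarith [sq_nonneg ‖s true - 0‖, sq_nonneg ‖s false‖]
  obtain ⟨w, hw⟩ : ∃ w, w = (1 / 2 : ℝ) • (p + r) := ⟨_, rfl⟩
  obtain ⟨β, hβ⟩ : ∃ β, β = w - (1 - t) • u := ⟨_, rfl⟩
  have c0 : ‖s false - (1 - t) • (β + u)‖ ^ 2 + ‖s true - t • β‖ ^ 2 ≤ ⟪r - w, p - w⟫ := by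
    have h1 := mul_le_mul_of_nonneg_left (b0 (β + u)) t1
    have h2 := mul_le_mul_of_nonneg_left (b1 β) t0
    rw [show w = β + (1 - t) • u by rw [hβ]; abel]
    simp only [← real_inner_self_eq_norm_sq, inner_sub_left, inner_sub_right, inner_add_left,
      inner_add_right, real_inner_smul_left, real_inner_smul_right, real_inner_comm β u,
      real_inner_comm β (s false), real_inner_comm β (s true), real_inner_comm u (s false),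
      real_inner_comm β r, real_inner_comm u r] at h1 h2 ⊢
    linarith
  have c1 : ⟪r - w, p - w⟫ = -(‖p - r‖ ^ 2 / 4) := by
    rw [hw]
    simp only [← real_inner_self_eq_norm_sq, inner_sub_left, inner_sub_right, inner_add_left,
      inner_add_right, real_inner_smul_left, real_inner_smul_right, real_inner_comm p r]
    ring
  have z0 : ∀ x : H, ‖x‖ ^ 2 ≤ 0 → x = 0 := fun x hx =>
    norm_eq_zero.1 (pow_eq_zero_iff two_ne_zero |>.1 (le_antisymm hx (sq_nonneg _)))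
  have n1 := sq_nonneg ‖s false - (1 - t) • (β + u)‖
  have n2 := sq_nonneg ‖s true - t • β‖
  have n3 := sq_nonneg ‖p - r‖
  have d1 := sub_eq_zero.1 (z0 (s false - (1 - t) • (β + u)) (by linarith))
  have d2 := sub_eq_zero.1 (z0 (s true - t • β) (by linarith))
  obtain rfl := sub_eq_zero.1 (z0 (p - r) (by linarith))
  obtain rfl : w = p := by rw [hw, ← two_smul ℝ p, smul_smul]; simp
  rcases t0.eq_or_lt with rfl | t0
  · simp only [sub_zero, one_smul, zero_smul] at hβ d1 d2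
    rw [hβ, sub_add_cancel] at d1
    refine ⟨w, τ, Or.inl ⟨?_, ?_⟩⟩
    · have := b1 β
      rw [d1, d2, hβ] at this
      simp only [← real_inner_self_eq_norm_sq, inner_sub_left, inner_sub_right, inner_zero_left,
        inner_zero_right, real_inner_comm w u] at this ⊢
      linarith
    · congr 1
      funext b; cases b; exacts [d1, d2]
  rcases t1.eq_or_lt with t1 | t1
  · obtain rfl : t = 1 := by linarith
    simp only [sub_self, one_smul, zero_smul, sub_zero] at hβ d1 d2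
    rw [hβ] at d2
    refine ⟨w, τ, Or.inr ⟨?_, ?_⟩⟩
    · have := b0 (w + u)
      rw [d1, d2] at this
      simp only [← real_inner_self_eq_norm_sq, inner_sub_left, inner_sub_right, inner_zero_left,
        inner_zero_right, inner_add_left, inner_add_right, real_inner_comm w u] at this ⊢
      linarith
    · congr 1
      funext b; cases b; exacts [d1, d2]
  · exfalso
    apply hu
    have e1 : β ∈ D := (D.smul_mem_iff t0.ne').1 (d2 ▸ hD true)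
    have e2 : β + u ∈ D := (D.smul_mem_iff t1.ne').1 (d1 ▸ hD false)
    simpa using D.sub_mem e2 e1

noncomputable def pw (a : ℝ) (ha : 1 < 2 * a) : H :=
  ⟨fun n => ((n : ℝ) + 1) ^ (-a), memℓp_gen (by
    have := (summable_nat_add_iff 1).2 (Real.summable_nat_rpow.2 (show -(2 * a) < -1 by linarith))
    refine this.congr fun n => ?_
    rw [ENNReal.toReal_ofNat, Real.norm_of_nonneg (by positivity), ← Real.rpow_mul (by positivity)]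
    push_cast; ring_nf)⟩

theorem nsum : ¬ Summable fun n : ℕ => ((n : ℝ) + 1) ^ (-1 : ℝ) := fun h => by
  have := (summable_nat_add_iff (f := fun n : ℕ => (n : ℝ) ^ (-1 : ℝ)) 1).1 (by simpa using h)
  exact lt_irrefl _ (Real.summable_nat_rpow.1 this)

theorem ex1 : ∃ (X : Type) (_ : NormedAddCommGroup X) (_ : NormedSpace ℝ X) (_ : CompleteSpace X)
    (G : Set (X × (X →L[ℝ] ℝ))) (l : X →L[ℝ] ℝ) (z : X) (κ : ℝ),
    (∀ a ∈ G, ∀ b ∈ G, 0 ≤ (a.2 - b.2) (a.1 - b.1)) ∧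
    (∀ a : X × (X →L[ℝ] ℝ), (∀ b ∈ G, 0 ≤ (a.2 - b.2) (a.1 - b.1)) → a ∈ G) ∧
    l z = 1 / 2 ∧ 0 ≤ κ ∧ (∃ a ∈ G, l a.1 = 0) ∧ (∃ a ∈ G, l a.1 = 1) ∧
    ∀ a ∈ G, (l a.1 = 0 ∧ a.2 (z - a.1) ≤ 0) ∨ (l a.1 = 1 ∧ a.2 (z - a.1) ≤ κ / 2) := by
  obtain ⟨Z, _, _, _, V, hV⟩ := iface
  let u := pw 1 (by norm_num)
  have m0 : ((fun b => cond b 0 0, (0, 0), fn 0 (-‖0 - u‖ ^ 2)) :
    (Bool → H) × (H × ℝ) × (H × ℝ →L[ℝ] ℝ)) ∈ M1 u := ⟨0, _, Or.inl ⟨le_rfl, rfl⟩⟩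
  have m1 : ((fun b => cond b 0 0, (0, 1), fn 0 0) :
    (Bool → H) × (H × ℝ) × (H × ℝ →L[ℝ] ℝ)) ∈ M1 u := ⟨0, _, Or.inr ⟨by simp, rfl⟩⟩
  have d0 : ∀ b : Bool, (cond b 0 0 : H) ∈ D := by rintro (_ | _) <;> exact D.zero_mem
  refine ⟨Z × H × ℝ, inferInstance, inferInstance, inferInstance, LA V (M1 u),
    (snd ℝ H ℝ).comp (snd ℝ Z _), (0, 0, 1 / 2), ‖u‖ ^ 2, LA_mono hV _ (M1_mono u),
    LA_max hV _ ⟨_, m0, d0⟩ (M1_max u nsum), rfl, sq_nonneg _, ?_, ?_, ?_⟩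
  · obtain ⟨a, a1, a2, a3⟩ := exl hV (_, (0, 0), fn 0 (-‖0 - u‖ ^ 2)) d0
    exact ⟨a, ⟨_, a1, by rw [a2, a3]; exact m0⟩, by simp [a2]⟩
  · obtain ⟨a, a1, a2, a3⟩ := exl hV (_, (0, 1), fn 0 0) d0
    exact ⟨a, ⟨_, a1, by rw [a2, a3]; exact m1⟩, by simp [a2]⟩
  · rintro a ⟨s, h1, α, τ, ⟨h, h2⟩ | ⟨h, h2⟩⟩ <;>
    obtain ⟨rfl, h3, h4⟩ := Prod.ext_iff.1 h2 |>.imp_right Prod.ext_iff.1 <;>
    have h5 := (hV.1 _ h1).2 <;> simp only at h3 h4 h5 <;> rw [spl a.2, h4, fn_ap]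
    · refine Or.inl ⟨by simp [h3], ?_⟩
      simp only [Prod.fst_sub, Prod.snd_sub, h3, map_neg, h5, cond_true, cond_false,
        zero_sub, inner_neg_right, real_inner_self_eq_norm_sq, norm_zero]
      linarith [sq_nonneg ‖α - u‖]
    · refine Or.inr ⟨by simp [h3], ?_⟩
      have := sq_nonneg ‖u + α‖
      rw [norm_add_sq_real] at this
      simp only [Prod.fst_sub, Prod.snd_sub, h3, map_neg, h5, cond_true, cond_false,
        zero_sub, inner_neg_right, real_inner_self_eq_norm_sq, norm_zero]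
      linarith

section
variable {X Y : Type} [NormedAddCommGroup X] [NormedSpace ℝ X] [NormedAddCommGroup Y]
  [NormedSpace ℝ Y]

def MM (G : Set (X × (X →L[ℝ] ℝ))) : Prop :=
  (∀ a ∈ G, ∀ b ∈ G, 0 ≤ (a.2 - b.2) (a.1 - b.1)) ∧
    ∀ a : X × (X →L[ℝ] ℝ), (∀ b ∈ G, 0 ≤ (a.2 - b.2) (a.1 - b.1)) → a ∈ G

theorem mult (f l : X →L[ℝ] ℝ) (e : X) (he : l e = 1) (h : ∀ v, l v = 0 → 0 ≤ f v) :
    f = f e • l := ContinuousLinearMap.ext fun v => by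
  have h1 := h (v - l v • e) (by simp [he])
  have h2 := h (-(v - l v • e)) (by simp [he])
  simp only [map_neg, map_sub, map_smul, smul_eq_mul, _root_.smul_apply] at *
  linarith

theorem slope {A B : ℝ} (h : ∀ c, 0 ≤ c → 0 ≤ A - c * B) : B ≤ 0 := by
  by_contra hc
  have hB := not_le.1 hc
  have := h ((|A| + 1) / B) (by positivity)
  rw [div_mul_cancel₀ _ hB.ne'] at this
  linarith [le_abs_self A]

def NC (l : X →L[ℝ] ℝ) : Set (X × (X →L[ℝ] ℝ)) :=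
  {a | l a.1 ≤ 1 / 2 ∧ ∃ c : ℝ, 0 ≤ c ∧ a.2 = c • l ∧ c * (l a.1 - 1 / 2) = 0}

theorem NC_mm (l : X →L[ℝ] ℝ) (z : X) (hz : l z = 1 / 2) : MM (NC l) := by
  constructor
  · rintro a ⟨h1, c, c0, h2, h3⟩ b ⟨h4, d, d0, h5, h6⟩
    rw [h2, h5]
    simp only [_root_.sub_apply, _root_.smul_apply, map_sub, smul_eq_mul]
    nlinarith [mul_nonneg c0 (sub_nonneg.2 h4), mul_nonneg d0 (sub_nonneg.2 h1)]
  · intro a h
    have h1 : l a.1 ≤ 1 / 2 := by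
      have := slope (A := a.2 (a.1 - z)) (B := l a.1 - 1 / 2) fun c hc => by
        have := h (z, c • l) ⟨hz.le, c, hc, rfl, by simp [hz]⟩
        simpa only [_root_.sub_apply, _root_.smul_apply, map_sub l, smul_eq_mul, hz] using this
      linarith
    have h2 : ∀ v, 0 ≤ l v → 0 ≤ a.2 v := fun v hv => by
      simpa using h (a.1 - v, 0) ⟨by rw [map_sub]; linarith, 0, le_rfl, by simp, by simp⟩
    have h3 : l ((2 : ℝ) • z) = 1 := by rw [map_smul, hz]; norm_num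
    have h4 := mult a.2 l _ h3 fun v hv => h2 v hv.ge
    have h5 := h2 _ (h3 ▸ zero_le_one)
    refine ⟨h1, _, h5, h4, le_antisymm (mul_nonpos_of_nonneg_of_nonpos h5 (by linarith)) ?_⟩
    have := h (z, 0) ⟨hz.le, 0, le_rfl, by simp, by simp⟩
    rw [sub_zero, h4] at this
    simpa only [_root_.smul_apply, map_sub l, smul_eq_mul, hz] using this

theorem MM.ex {G : Set (X × (X →L[ℝ] ℝ))} (h : MM G) (z : X × (X →L[ℝ] ℝ)) :
    ∃ b ∈ G, (z.2 - b.2) (z.1 - b.1) ≤ 0 := by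
  by_contra hc
  push Not at hc
  simpa using hc z (h.2 z fun b hb => (hc b hb).le)

theorem MM.prod {G : Set (X × (X →L[ℝ] ℝ))} {G' : Set (Y × (Y →L[ℝ] ℝ))} (h : MM G)
    (h' : MM G') : MM {a : (X × Y) × (X × Y →L[ℝ] ℝ) |
      (a.1.1, a.2.comp (inl ℝ X Y)) ∈ G ∧ (a.1.2, a.2.comp (inr ℝ X Y)) ∈ G'} := by
  constructor
  · rintro a ⟨h1, h2⟩ b ⟨h3, h4⟩
    rw [spl, sub_comp, sub_comp]
    exact add_nonneg (h.1 _ h1 _ h3) (h'.1 _ h2 _ h4)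
  · intro a ha
    have h1 : ∀ b ∈ G, ∀ b' ∈ G', 0 ≤ (a.2.comp (inl ℝ X Y) - b.2) (a.1.1 - b.1)
        + (a.2.comp (inr ℝ X Y) - b'.2) (a.1.2 - b'.1) := fun b hb b' hb' => by
      have := ha ((b.1, b'.1), b.2.coprod b'.2) ⟨by simpa using hb, by simpa using hb'⟩
      rw [spl, sub_comp, sub_comp] at this
      simpa using this
    obtain ⟨b, hb, h2⟩ := h.ex (a.1.1, a.2.comp (inl ℝ X Y))
    obtain ⟨b', hb', h3⟩ := h'.ex (a.1.2, a.2.comp (inr ℝ X Y))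
    exact ⟨h.2 _ fun c hc => by linarith [h1 c hc b' hb'],
      h'.2 _ fun c hc => by linarith [h1 b hb c hc]⟩

end

end Pool.Agent.H.MP_826cdb_an
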