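import Pool.Agent.H.MP_826cdb_an.B

set_option autoImplicit false
open Set Metric Filter Topology ContinuousLinearMap
open scoped RealInnerProductSpace

namespace Pool.Agent.H.MP_826cdb_an

theorem lin0 {V : Type*} [NormedAddCommGroup V] [NormedSpace ℝ V] (f : V →L[ℝ] ℝ) (u : ℝ)
    (h : ∀ x, f x ≤ u) (x : V) : f x = 0 := by
  by_contra hx
  have := h (((u + 1) / f x) • x)
  rw [map_smul, smul_eq_mul, div_mul_cancel₀ _ hx] at this
  linarith

theorem sand {V : Type*} [NormedAddCommGroup V] [NormedSpace ℝ V] (h : V → ℝ)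
    (hc : ConvexOn ℝ univ h) (M : ℝ) (hM : ∀ x, ‖x‖ < 1 → h x ≤ M)
    (B : Set (V × ℝ)) (hB : Convex ℝ B) (hne : B.Nonempty) (hle : ∀ p ∈ B, p.2 ≤ h p.1) :
    ∃ (L : V →L[ℝ] ℝ) (c : ℝ), (∀ x, L x + c ≤ h x) ∧ ∀ p ∈ B, p.2 ≤ L p.1 + c := by
  have hA := hc.convex_strict_epigraph
  obtain ⟨f, u, hf0, hfA, hfB⟩ := geometric_hahn_banach_of_nonempty_interior hA hB
    (Set.disjoint_left.2 fun p hp hpB => by
      have := (interior_subset hp).2
      have := hle p hpB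
      linarith)
    ⟨(0, M + 1), by
      refine interior_maximal (t := ball (0 : V) 1 ×ˢ Ioi M) ?_ (isOpen_ball.prod isOpen_Ioi) ?_
      · rintro ⟨x, t⟩ ⟨hx, ht⟩
        refine ⟨trivial, ?_⟩
        have := hM x (by simpa using hx)
        exact lt_of_le_of_lt this ht
      · simp⟩ hne
  set κ := f (0, 1) with hκ
  set f1 : V →L[ℝ] ℝ := f.comp (ContinuousLinearMap.inl ℝ V ℝ) with hf1
  have hd : ∀ (x : V) (t : ℝ), f (x, t) = f1 x + t * κ := fun x t => by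
    have : ((x, t) : V × ℝ) = (x, 0) + t • (0, 1) := by simp
    rw [this, map_add, map_smul]; simp [hf1, hκ]
  have h1 : ∀ x t, h x < t → f1 x + t * κ ≤ u := fun x t ht => by
    rw [← hd]; exact hfA (x, t) ⟨trivial, ht⟩
  have hk : κ < 0 := by
    rcases lt_trichotomy κ 0 with hk | hk | hk
    · exact hk
    · exfalso
      apply hf0
      have h2 : ∀ x, f1 x ≤ u := fun x => by
        have := h1 x (h x + 1) (by linarith)
        rwa [hk, mul_zero, add_zero] at this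
      refine ContinuousLinearMap.ext fun p => ?_
      rw [show p = (p.1, p.2) from rfl, hd, hk, lin0 f1 u h2]; simp
    · exfalso
      have := h1 0 (|h 0| + |u| / κ + 1) (by
        have : 0 ≤ |u| / κ := by positivity
        linarith [le_abs_self (h 0)])
      rw [map_zero, add_mul, add_mul, div_mul_cancel₀ _ hk.ne'] at this
      nlinarith [le_abs_self u, abs_nonneg (h 0)]
  refine ⟨(-κ)⁻¹ • f1, -u / (-κ), fun x => ?_, fun p hp => ?_⟩
  · refine le_of_forall_gt_imp_ge_of_dense fun t ht => ?_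
    have := h1 x t ht
    rw [_root_.smul_apply, smul_eq_mul, inv_mul_eq_div, ← add_div,
      div_le_iff₀ (by linarith)]
    linarith
  · have := hfB p hp
    rw [show p = (p.1, p.2) from rfl, hd] at this
    rw [_root_.smul_apply, smul_eq_mul, inv_mul_eq_div, ← add_div,
      le_div_iff₀ (by linarith)]
    linarith


def KK (v : H) (x : H × ℝ) : Prop := 0 ≤ x.2 ∧ ‖x.1 - x.2 • v‖ ≤ 1 - x.2

def M2 (S : H →L[ℝ] H) (v : H) : Set ((Bool → H) × (H × ℝ) × (H × ℝ →L[ℝ] ℝ)) :=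
  {m | ∃ h t ξ τ, KK v (h, t) ∧ (∀ x, KK v x → ⟪ξ, S x.1 - S h⟫ + τ * (x.2 - t) ≤ 0) ∧
    m = (fun b => cond b 0 (S h), (S h, t), fn (S h + ξ) τ)}

theorem M2_mono (S : H →L[ℝ] H) (v : H) : ∀ m ∈ M2 S v, ∀ m' ∈ M2 S v,
    Q (m.1 - m'.1) ≤ (m.2.2 - m'.2.2) (m.2.1 - m'.2.1) := by
  rintro _ ⟨h, t, ξ, τ, h1, h2, rfl⟩ _ ⟨h', t', ξ', τ', h3, h4, rfl⟩
  have h5 := h2 _ h3
  have h6 := h4 _ h1
  simp only [Q, Pi.sub_apply, cond_true, cond_false, _root_.sub_apply, fn_ap, Prod.fst_sub,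
    Prod.snd_sub, ← real_inner_self_eq_norm_sq, inner_sub_left, inner_sub_right, inner_zero_left,
    inner_add_left, real_inner_comm (S h) (S h')] at *
  linarith

theorem dK (v : H) (Z : Set H) (hZ : Dense Z) (P : Set (H × ℝ)) (hP : IsClosed P)
    (h : ∀ x, KK v x → x.1 ∈ Z → x ∈ P) (x : H × ℝ) (hx : KK v x) : x ∈ P := by
  have h1 : ∀ η : ℝ, 0 < η → η < 1 → (1 - η) • x ∈ P := fun η η0 η1 => by
    have h2 : (1 - η) • x.1 ∈ closure ({y | ‖y - ((1 - η) * x.2) • v‖ < 1 - (1 - η) * x.2} ∩ Z) := by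
      refine hZ.open_subset_closure_inter (isOpen_lt (by fun_prop) (by fun_prop)) ?_
      show ‖_‖ < _
      rw [mul_smul, ← smul_sub, norm_smul, Real.norm_of_nonneg (by linarith)]
      nlinarith [mul_le_mul_of_nonneg_left hx.2 (show 0 ≤ 1 - η by linarith)]
    refine hP.closure_subset (map_mem_closure (f := fun y : H => (y, (1 - η) * x.2))
      (by fun_prop) h2 fun y hy => h _ ⟨mul_nonneg (by linarith) hx.1, le_of_lt hy.1⟩ hy.2)
  have h2 : Tendsto (fun η : ℝ => (1 - η) • x) (𝓝[>] 0) (𝓝 x) := by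
    have : Continuous fun η : ℝ => (1 - η) • x := by fun_prop
    simpa using (this.tendsto 0).mono_left nhdsWithin_le_nhds
  refine hP.mem_of_tendsto h2 ?_
  filter_upwards [Ioo_mem_nhdsGT one_pos] with η hη using h1 η hη.1 hη.2

theorem doug (S : H →L[ℝ] H) (hS : ∀ x y, ⟪S x, y⟫ = ⟪x, S y⟫) (p : H) (c : ℝ) (hc : 0 ≤ c)
    (h : ∀ ξ, ⟪ξ, p⟫ ≤ c * ‖S ξ‖) : ∃ k, ‖k‖ ≤ c ∧ S k = p := by
  obtain ⟨L, d, h1, h2⟩ := sand (fun x : H => c * ‖x‖) (convexOn_univ_norm.smul hc) c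
    (fun x hx => mul_le_of_le_one_right hc hx.le)
    (LinearMap.range (S.prod (innerSL ℝ p)).toLinearMap) (Submodule.convex _)
    (Submodule.nonempty _) (by
      rintro _ ⟨ξ, rfl⟩
      exact (real_inner_comm _ _).trans_le (h ξ))
  have d0 : 0 ≤ d := by simpa using h2 _ ⟨0, rfl⟩
  have h3 := lin0 (innerSL ℝ p - L.comp S) d fun ξ => by
    have : ⟪p, ξ⟫ ≤ L (S ξ) + d := h2 _ ⟨ξ, rfl⟩
    show ⟪p, ξ⟫ - L (S ξ) ≤ d
    linarith
  refine ⟨(InnerProductSpace.toDual ℝ H).symm L, ?_, ext_inner_right ℝ fun ξ => ?_⟩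
  · rw [LinearIsometryEquiv.norm_map]
    refine L.opNorm_le_bound hc fun x => ?_
    have a1 := h1 x
    have a2 := h1 (-x)
    simp only [map_neg, norm_neg] at a1 a2
    rw [Real.norm_eq_abs, abs_le]; constructor <;> linarith
  · rw [hS, InnerProductSpace.toDual_symm_apply]
    exact (sub_eq_zero.1 (h3 ξ)).symm

theorem unit (w : H) : ‖‖w‖⁻¹ • w‖ ≤ 1 ∧ ⟪w, ‖w‖⁻¹ • w⟫ = ‖w‖ := by
  by_cases h : w = 0
  · simp [h]
  have := norm_ne_zero_iff.2 h
  rw [norm_smul, norm_inv, norm_norm, inv_mul_cancel₀ this, real_inner_smul_right,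
    real_inner_self_eq_norm_sq]
  exact ⟨le_rfl, by field_simp⟩

theorem z0 (x : H) (hx : ‖x‖ ^ 2 ≤ 0) : x = 0 :=
  norm_eq_zero.1 (pow_eq_zero_iff two_ne_zero |>.1 (le_antisymm hx (sq_nonneg _)))

theorem M2_max (S : H →L[ℝ] H) (v : H) (hS : ∀ x y, ⟪S x, y⟫ = ⟪x, S y⟫) (h2 : ∀ x, S (S x) ∈ D)
    (hv : S v ∉ D) (hd : Dense {x | S x ∈ D}) (z : (Bool → H) × (H × ℝ) × (H × ℝ →L[ℝ] ℝ))
    (h : ∀ m ∈ M2 S v, (∀ b, m.1 b ∈ D) →
      Q (z.1 - m.1) ≤ (z.2.2 - m.2.2) (z.2.1 - m.2.1)) : z ∈ M2 S v := by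
  obtain ⟨s, ⟨p, t⟩, ψ⟩ := z
  obtain ⟨r, τ, rfl⟩ := fn_ex ψ
  have a0 : ∀ k t' ξ ρ, KK v (k, t') → (∀ x, KK v x → ⟪ξ, S x.1 - S k⟫ + ρ * (x.2 - t') ≤ 0) →
      S k ∈ D → ‖s false - S k‖ ^ 2 + ‖s true‖ ^ 2 ≤ ⟪r - S k, p - S k⟫ + τ * (t - t')
        - (⟪ξ, p - S k⟫ + ρ * (t - t')) := fun k t' ξ ρ h1 h3 h4 => by
    have := h _ ⟨k, t', ξ, ρ, h1, h3, rfl⟩ (by rintro (_ | _); exacts [h4, D.zero_mem])
    simp only [Q, Pi.sub_apply, cond_true, cond_false, _root_.sub_apply, fn_ap, Prod.fst_sub,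
      Prod.snd_sub, sub_zero, inner_add_left] at this
    rw [inner_sub_left]; linarith
  have a1 : ∀ k t' ξ ρ, KK v (k, t') → (∀ x, KK v x → ⟪ξ, S x.1 - S k⟫ + ρ * (x.2 - t') ≤ 0) →
      S k ∈ D → ⟪ξ, p - S k⟫ + ρ * (t - t') ≤ 0 := fun k t' ξ ρ h1 h3 h4 =>
    slope (A := ⟪r - S k, p - S k⟫ + τ * (t - t')) fun c hc => by
      have := a0 k t' (c • ξ) (c * ρ) h1 (fun x hx => by
        rw [real_inner_smul_left]
        linarith [mul_nonpos_of_nonneg_of_nonpos hc (h3 x hx)]) h4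
      rw [real_inner_smul_left] at this
      linarith [sq_nonneg ‖s false - S k‖, sq_nonneg ‖s true‖]
  have t0 : 0 ≤ t := by
    have := a1 0 0 0 (-1) ⟨le_rfl, by simp⟩ (fun x hx => by simpa using hx.1) (by simp)
    simpa using this
  have a2 : ∀ ξ, ⟪ξ, p - t • S v⟫ ≤ (1 - t) * ‖S ξ‖ := fun ξ => by
    obtain ⟨u1, u2⟩ := unit (S ξ)
    have := a1 (‖S ξ‖⁻¹ • S ξ) 0 ξ (‖S ξ‖ - ⟪S ξ, v⟫) ⟨le_rfl, by simpa using u1⟩ (fun x hx => by
      have b1 := real_inner_le_norm (S ξ) (x.1 - x.2 • v)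
      have b2 := mul_le_mul_of_nonneg_left hx.2 (norm_nonneg (S ξ))
      rw [inner_sub_right, real_inner_smul_right] at b1
      rw [inner_sub_right, ← hS, ← hS, u2]
      linarith) (by rw [map_smul]; exact D.smul_mem _ (h2 ξ))
    rw [inner_sub_right, ← hS, u2] at this
    rw [inner_sub_right, real_inner_smul_right, ← hS]
    linarith
  have t1 : 0 ≤ 1 - t := by
    have b1 := a2 v
    have b2 := a2 (-v)
    rw [inner_neg_left, map_neg, norm_neg] at b2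
    have b3 : 0 < ‖S v‖ := norm_pos_iff.2 fun e => hv (e ▸ D.zero_mem)
    exact nonneg_of_mul_nonneg_left (by linarith) b3
  obtain ⟨k, hk1, hk2⟩ := doug S hS _ _ t1 a2
  have hK : KK v (k + t • v, t) := ⟨t0, by simpa using hk1⟩
  obtain rfl : p = S (k + t • v) := by rw [map_add, map_smul, hk2, sub_add_cancel]
  have a3 := dK v _ hd {x | ‖s false - S x.1‖ ^ 2 + ‖s true‖ ^ 2 ≤
    ⟪r - S x.1, S (k + t • v) - S x.1⟫ + τ * (t - x.2)} (isClosed_le (by fun_prop) (by fun_prop))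
    fun x hx hx' => by simpa using a0 x.1 x.2 0 0 hx (by simp) hx'
  have a4 := a3 _ hK
  simp only [mem_setOf_eq, sub_self, inner_zero_right, mul_zero, add_zero] at a4
  have d1 := sub_eq_zero.1 (z0 (s false - S (k + t • v)) (by linarith [sq_nonneg ‖s true‖]))
  have d2 := z0 (s true) (by linarith [sq_nonneg ‖s false - S (k + t • v)‖])
  refine ⟨_, t, r - S (k + t • v), τ, hK, fun x hx => ?_, ?_⟩
  · have := a3 x hx
    generalize S (k + t • v) = p at *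
    simp only [mem_setOf_eq, d1, d2, ← real_inner_self_eq_norm_sq, inner_sub_left, inner_sub_right,
      inner_zero_left, real_inner_comm p (S x.1)] at this ⊢
    linarith
  · rw [add_sub_cancel]
    congr 1
    funext b; cases b; exacts [d1, d2]

theorem nonsup (S : H →L[ℝ] H) (v : H) (hS : ∀ x y, ⟪S x, y⟫ = ⟪x, S y⟫) (h2 : ∀ x, S (S x) ∈ D)
    (hv : S v ∉ D) (h ξ : H) (t τ : ℝ) (h1 : KK v (h, t)) (t0 : 0 < t) (hD : S h ∈ D)
    (h3 : ∀ x, KK v x → ⟪ξ, S x.1 - S h⟫ + τ * (x.2 - t) ≤ 0) : S ξ = 0 ∧ τ = 0 := by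
  have t1 : ‖h - t • v‖ ≤ 1 - t := h1.2
  have t2 : 0 ≤ 1 - t := (norm_nonneg _).trans t1
  have key : ∀ c : ℝ, h - t • v ≠ c • S ξ := fun c e => hv <| (D.smul_mem_iff t0.ne').1 <| by
    have : t • S v = S h - c • S (S ξ) := by
      rw [← map_smul, ← map_smul, ← e, ← map_sub, sub_sub_cancel]
    rw [this]
    exact D.sub_mem hD (D.smul_mem _ (h2 ξ))
  have a1 : S ξ = 0 := by
    by_contra hc
    have n0 : 0 < ‖S ξ‖ := norm_pos_iff.2 hc
    obtain ⟨u1, u2⟩ := unit (S ξ)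
    have b1 := h3 (t • v + (1 - t) • ‖S ξ‖⁻¹ • S ξ, t) ⟨t0.le, by
      simp only [add_sub_cancel_left]
      rw [norm_smul, Real.norm_of_nonneg t2]
      exact mul_le_of_le_one_right t2 u1⟩
    rw [← map_sub, ← hS, inner_sub_right, inner_add_right, real_inner_smul_right (S ξ) _ (1 - t),
      u2] at b1
    refine key ((1 - t) * ‖S ξ‖⁻¹) (sub_eq_zero.1 (z0 _ ?_))
    have b2 : (1 - t) * ‖S ξ‖ ≤ ⟪S ξ, h - t • v⟫ := by rw [inner_sub_right]; linarith
    have b3 := mul_le_mul_of_nonneg_left b2 (show 0 ≤ (1 - t) * ‖S ξ‖⁻¹ by positivity)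
    have b4 : ‖h - t • v‖ ^ 2 ≤ (1 - t) ^ 2 := by gcongr
    have b5 : (1 - t) * ‖S ξ‖⁻¹ * ‖S ξ‖ = 1 - t := by field_simp
    rw [norm_sub_sq_real, real_inner_smul_right, real_inner_comm, norm_smul,
      Real.norm_of_nonneg (by positivity), b5]
    rw [mul_left_comm, b5] at b3
    linarith
  have a2 : ∀ x, KK v x → τ * (x.2 - t) ≤ 0 := fun x hx => by
    have := h3 x hx
    rwa [← map_sub, ← hS, a1, inner_zero_left, zero_add] at this
  have a3 := a2 (0, 0) ⟨le_rfl, by simp⟩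
  have a4 := a2 (v, 1) ⟨zero_le_one, by simp⟩
  have t3 : 0 < 1 - t := lt_of_le_of_ne t2 fun e => key 0 (by
    rw [zero_smul]; exact norm_le_zero_iff.1 (e ▸ t1))
  refine ⟨a1, le_antisymm (nonpos_of_mul_nonpos_left a4 t3) ?_⟩
  nlinarith

theorem wle (n : ℕ) (x : ℝ) : ‖((n : ℝ) + 1) ^ (-(1 / 3) : ℝ) * x‖ ≤ ‖x‖ := by
  rw [norm_mul, Real.norm_of_nonneg (by positivity)]
  exact mul_le_of_le_one_left (norm_nonneg _) (Real.rpow_le_one_of_one_le_of_nonpos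
    (by linarith [n.cast_nonneg (α := ℝ)]) (by norm_num))

noncomputable def SS : H →L[ℝ] H :=
  LinearMap.mkContinuous
    { toFun := fun h => ⟨fun n => ((n : ℝ) + 1) ^ (-(1 / 3) : ℝ) * h n,
        (lp.memℓp h).mono' fun n => wle n _⟩
      map_add' := fun _ _ => lp.ext (funext fun _ => mul_add _ _ _)
      map_smul' := fun _ _ => lp.ext (funext fun _ => mul_left_comm _ _ _) } 1 fun h => by
    rw [one_mul]
    exact lp.norm_mono (by norm_num) fun n => wle n _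

theorem SS_ap (h : H) (n : ℕ) : SS h n = ((n : ℝ) + 1) ^ (-(1 / 3) : ℝ) * h n := rfl

theorem ex2 : ∃ (X : Type) (_ : NormedAddCommGroup X) (_ : NormedSpace ℝ X) (_ : CompleteSpace X)
    (G : Set (X × (X →L[ℝ] ℝ))) (l : X →L[ℝ] ℝ) (z : X), MM G ∧ Convex ℝ {x | ∃ f, (x, f) ∈ G} ∧
    0 < l z ∧ (∀ f, (z, f) ∉ G) ∧ (∃ a ∈ G, 0 < l a.1) ∧
    ∀ a ∈ G, 0 < l a.1 → a.2 (z - a.1) ≤ 0 := by
  obtain ⟨Z, _, _, _, V, hV⟩ := iface
  obtain ⟨S, v, hS, h2, hv, hd⟩ : ∃ (S : H →L[ℝ] H) (v : H), (∀ x y, ⟪S x, y⟫ = ⟪x, S y⟫) ∧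
      (∀ x, S (S x) ∈ D) ∧ S v ∉ D ∧ Dense {x | S x ∈ D} := by
    have e : ∀ (n : ℕ) (a b : ℝ), ((n : ℝ) + 1) ^ a * ((n : ℝ) + 1) ^ b = ((n : ℝ) + 1) ^ (a + b) :=
      fun n a b => (Real.rpow_add (by positivity) _ _).symm
    refine ⟨SS, pw (2 / 3) (by norm_num), fun x y => ?_, fun x => ?_, fun h => nsum ?_,
      den (D.comap SS.toLinearMap) fun j c => ssum _ j c⟩
    · rw [lp.inner_eq_tsum, lp.inner_eq_tsum]
      refine tsum_congr fun n => ?_
      simp only [SS_ap, Real.inner_apply]; ring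
    · refine (lp.summable_inner (𝕜 := ℝ) (pw (2 / 3) (by norm_num)) x).congr fun n => ?_
      rw [SS_ap, SS_ap, ← mul_assoc, e, Real.inner_apply]
      norm_num
      exact Or.inl rfl
    · refine Summable.congr h fun n => ?_
      rw [SS_ap]
      exact (e n _ _).trans (by norm_num)
  have d0 : ∀ b : Bool, (cond b 0 (S 0) : H) ∈ D := by rintro (_ | _) <;> simp
  have m0 : ∀ h t, KK v (h, t) → ((fun b => cond b 0 (S h), (S h, t), fn (S h + 0) 0) :
    (Bool → H) × (H × ℝ) × (H × ℝ →L[ℝ] ℝ)) ∈ M2 S v := fun h t hk =>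
      ⟨h, t, 0, 0, hk, by simp, rfl⟩
  have k0 : KK v (0, (1 + ‖v‖)⁻¹) := ⟨by positivity, by
    have : 0 < 1 + ‖v‖ := by positivity
    rw [zero_sub, norm_neg, norm_smul, Real.norm_of_nonneg (by positivity)]
    exact le_of_eq (by field_simp; ring)⟩
  refine ⟨Z × H × ℝ, inferInstance, inferInstance, inferInstance, LA V (M2 S v),
    (snd ℝ H ℝ).comp (snd ℝ Z _), (0, 0, 2), ⟨LA_mono hV _ (M2_mono S v),
    LA_max hV _ ⟨_, m0 _ _ k0, d0⟩ fun z _ => M2_max S v hS h2 hv hd z⟩, ?_, by simp, ?_, ?_, ?_⟩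
  · rintro x ⟨f, s, h1, h, t, ξ, τ, h3, -, h4⟩ x' ⟨f', s', h1', h', t', ξ', τ', h3', -, h4'⟩
      a b ha hb hab
    obtain ⟨rfl, h5, -⟩ := Prod.ext_iff.1 h4 |>.imp_right Prod.ext_iff.1
    obtain ⟨rfl, h5', -⟩ := Prod.ext_iff.1 h4' |>.imp_right Prod.ext_iff.1
    simp only at h1 h1' h5 h5'
    have hk : KK v (a • h + b • h', a * t + b * t') := by
      refine ⟨add_nonneg (mul_nonneg ha h3.1) (mul_nonneg hb h3'.1), ?_⟩
      have e : a • h + b • h' - (a * t + b * t') • v = a • (h - t • v) + b • (h' - t' • v) := by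
        module
      have b1 := mul_le_mul_of_nonneg_left h3.2 ha
      have b2 := mul_le_mul_of_nonneg_left h3'.2 hb
      have b3 := norm_add_le (a • (h - t • v)) (b • (h' - t' • v))
      rw [norm_smul, norm_smul, Real.norm_of_nonneg ha, Real.norm_of_nonneg hb] at b3
      simp only [e] at *
      linarith
    refine ⟨(a • f.comp (inl ℝ _ _) + b • f'.comp (inl ℝ _ _)).coprod
      (fn (S (a • h + b • h') + 0) 0), fun c => cond c 0 (S (a • h + b • h')), ?_, ?_⟩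
    · have e : (fun c => cond c 0 (S (a • h + b • h')))
          = a • (fun c => cond c 0 (S h)) + b • (fun c => cond c 0 (S h')) := by
        funext c; cases c <;> simp
      rw [e, coprod_comp_inl]
      exact V.add_mem (V.smul_mem a h1) (V.smul_mem b h1')
    · have e : (a • x + b • x').2 = (S (a • h + b • h'), a * t + b * t') := by
        simp [h5, h5']
      simp only [coprod_comp_inr, e]
      exact m0 _ _ hk
  · rintro f ⟨s, -, h, t, ξ, τ, h3, -, h4⟩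
    have h5 : (2 : ℝ) = t := congrArg (fun m => m.2.1.2) h4
    have := (norm_nonneg _).trans h3.2
    simp only at this
    linarith
  · obtain ⟨a, a1, a2, a3⟩ := exl hV (_, (S 0, (1 + ‖v‖)⁻¹), fn (S 0 + 0) 0) d0
    exact ⟨a, ⟨_, a1, by rw [a2, a3]; exact m0 _ _ k0⟩, by simp [a2]; positivity⟩
  · rintro a ⟨s, h1, h, t, ξ, τ, h3, h4, h5⟩ hl
    obtain ⟨rfl, h6, h7⟩ := Prod.ext_iff.1 h5 |>.imp_right Prod.ext_iff.1
    obtain ⟨h8, h9⟩ := hV.1 _ h1
    simp only at h6 h7 h8 h9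
    obtain ⟨b1, rfl⟩ := nonsup S v hS h2 hv h ξ t τ h3 (by simpa [h6] using hl) (h8 false) h4
    rw [spl a.2, h7, fn_ap]
    simp only [Prod.fst_sub, Prod.snd_sub, h6, map_neg, h9, cond_true, cond_false, zero_sub,
      inner_neg_right, inner_add_left, real_inner_self_eq_norm_sq, norm_zero, ← hS ξ h, b1,
      inner_zero_left]
    linarith

end Pool.Agent.H.MP_826cdb_an
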