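import Pool.Agent.H.MP_826cdb_an.C

set_option autoImplicit false
open Set Metric Filter Topology ContinuousLinearMap
open scoped RealInnerProductSpace

namespace Pool.Agent.H.MP_826cdb_an

theorem sep {V : Type*} [NormedAddCommGroup V] [NormedSpace ℝ V] (W : Submodule ℝ V)
    (hW : IsClosed (W : Set V)) (x : V) (h : ∀ φ : V →L[ℝ] ℝ, (∀ v ∈ W, φ v = 0) → φ x = 0) :
    x ∈ W := by
  by_contra hx
  obtain ⟨φ, u, h1, h2⟩ := geometric_hahn_banach_closed_point W.convex hW hx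
  have h3 : ∀ v ∈ W, φ v = 0 := fun v hv =>
    lin0 (φ.comp W.subtypeL) u (fun w => (h1 w w.2).le) ⟨v, hv⟩
  have h4 := h1 0 W.zero_mem
  rw [h φ h3] at h2
  rw [map_zero] at h4
  linarith


section
variable {Z : Type} [NormedAddCommGroup Z] [NormedSpace ℝ Z]
  {V : Submodule ℝ ((Z × (Z →L[ℝ] ℝ)) × (Bool → H))}

def N1 (V : Submodule ℝ ((Z × (Z →L[ℝ] ℝ)) × (Bool → H))) : Submodule ℝ Z where
  carrier := {x | ∃ f, ((x, f), 0) ∈ V}
  add_mem' := fun ⟨f, hf⟩ ⟨g, hg⟩ => ⟨f + g, by simpa using V.add_mem hf hg⟩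
  zero_mem' := ⟨0, V.zero_mem⟩
  smul_mem' := fun c _ ⟨f, hf⟩ => ⟨c • f, by simpa using V.smul_mem c hf⟩

theorem ann (hV : IF V) (L : Z →L[ℝ] ℝ) (h : ∀ x ∈ N1 V, L x = 0) : ((0, L), 0) ∈ V := by
  obtain ⟨s, hs⟩ := hV.2.2 (0, L) fun n hn => by simpa using h n.1 ⟨n.2, hn⟩
  have h1 := (hV.1 _ hs).2
  simp only [map_zero] at h1
  have : s = 0 := by
    funext b
    cases b <;> exact z0 _ (by linarith [sq_nonneg ‖s false‖, sq_nonneg ‖s true‖])
  rwa [this] at hs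

theorem dn (hV : IF V) (p : Z × (Z →L[ℝ] ℝ)) (s : Bool → H) (hp : (p, s) ∈ V) :
    p.1 ∈ closure (N1 V : Set Z) :=
  sep (N1 V).topologicalClosure (N1 V).isClosed_topologicalClosure p.1 fun φ hφ => by
    have h1 := (hV.1 _ (V.add_mem hp (ann hV φ fun x hx =>
      hφ x ((N1 V).le_topologicalClosure hx)))).2
    have h2 := (hV.1 _ hp).2
    simp only [Prod.fst_add, Prod.snd_add, add_zero, _root_.add_apply] at h1 h2
    linarith

def M3 (γ : ℝ → H) (K : ℝ) : Set ((Bool → H) × ℝ × (ℝ →L[ℝ] ℝ)) :=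
  {m | ∃ t, m = (fun b => cond b 0 (γ t), t, (K * t) • ContinuousLinearMap.id ℝ ℝ)}

theorem fpv (hV : IF V) (γ : ℝ → H) (K : ℝ) (K0 : 0 ≤ K) (hγ : Continuous γ)
    (hD : ∀ t, t ≠ 1 / 2 → γ t ∈ D) (U : Set (Z × ℝ)) (hU : IsOpen U)
    (a : (Z × ℝ) × (Z × ℝ →L[ℝ] ℝ)) (ha : a ∈ LA V (M3 γ K)) (haU : a.1 ∈ U)
    (z : (Z × ℝ) × (Z × ℝ →L[ℝ] ℝ)) (hzU : z.1 ∈ U)
    (hz : ∀ b ∈ LA V (M3 γ K), b.1 ∈ U → 0 ≤ (z.2 - b.2) (z.1 - b.1)) : z ∈ LA V (M3 γ K) := by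
  obtain ⟨δ, δ0, hδ⟩ := Metric.isOpen_iff.1 hU _ haU
  obtain ⟨ε, ε0, hε⟩ := Metric.isOpen_iff.1 hU _ hzU
  have q0 := hz a ha haU
  obtain ⟨sa, a1, a2⟩ := ha
  obtain ⟨L, c, -, hL⟩ := sand (fun x : Z => ((z.2 - a.2) (z.1 - a.1) / δ) * (‖x‖ + 1))
    ((convexOn_univ_norm.add_const 1).smul (by positivity)) ((z.2 - a.2) (z.1 - a.1) / δ * 2)
    (fun x hx => mul_le_mul_of_nonneg_left (by linarith) (by positivity))
    {p | ∃ g, ((p.1, g), 0) ∈ V ∧ p.2 = (z.2 - a.2) (p.1, 0) + g (z.1 - a.1).1}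
    (by
      rintro p ⟨g, h1, h2⟩ p' ⟨g', h1', h2'⟩ c d - - -
      refine ⟨c • g + d • g', by simpa using V.add_mem (V.smul_mem c h1) (V.smul_mem d h1'), ?_⟩
      have e : ((c • p + d • p').1, (0 : ℝ)) = c • (p.1, 0) + d • (p'.1, 0) := by simp
      rw [e, map_add, map_smul, map_smul]
      simp only [Prod.snd_add, Prod.smul_snd, smul_eq_mul, h2, h2', _root_.add_apply,
        _root_.smul_apply]
      ring) ⟨0, 0, V.zero_mem, by simp [← Prod.zero_eq_mk]⟩ (by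
      rintro ⟨x, y⟩ ⟨g, hn, hy⟩
      dsimp only at hn hy ⊢
      rw [hy]
      have h0 : g x = 0 := by simpa using (hV.1 _ hn).2
      obtain ⟨c, hc⟩ : ∃ c, c = δ / (‖x‖ + 1) := ⟨_, rfl⟩
      have := hz (a.1 + c • (x, 0), a.2 + c • g.comp (fst ℝ Z ℝ)) ⟨sa, by
        have e : (a.2 + c • g.comp (fst ℝ Z ℝ)).comp (inl ℝ Z ℝ)
          = a.2.comp (inl ℝ Z ℝ) + c • g := ContinuousLinearMap.ext fun x => by simp
        simpa [e, Prod.add_def] using V.add_mem a1 (V.smul_mem c hn), by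
        have e : (a.2 + c • g.comp (fst ℝ Z ℝ)).comp (inr ℝ Z ℝ) = a.2.comp (inr ℝ Z ℝ) :=
          ContinuousLinearMap.ext fun x => by simp
        simpa [e] using a2⟩ (hδ (by
          rw [mem_ball_iff_norm, add_sub_cancel_left, norm_smul, hc,
            Real.norm_of_nonneg (by positivity), div_mul_eq_mul_div, div_lt_iff₀ (by positivity)]
          simp [δ0]))
      dsimp only at this
      rw [← sub_sub, ← sub_sub, _root_.sub_apply, map_sub (z.2 - a.2), map_smul] at this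
      simp only [_root_.smul_apply, comp_apply, coe_fst', Prod.fst_sub, Prod.smul_fst, map_sub g,
        map_smul, smul_eq_mul, h0] at this ⊢
      rw [div_mul_eq_mul_div, le_div_iff₀ δ0, show δ = c * (‖x‖ + 1) by rw [hc]; field_simp]
      nlinarith [norm_nonneg x])
  obtain ⟨s', hs'⟩ := hV.2.2 ((z.1 - a.1).1, (z.2 - a.2).comp (inl ℝ Z ℝ) - L) fun n hn => by
    have h1 : ∀ d : ℝ, 0 ≤ c - d * ((z.2 - a.2) (n.1, 0) + n.2 (z.1 - a.1).1 - L n.1) := fun d => by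
      have := hL (d • n.1, d * ((z.2 - a.2) (n.1, 0) + n.2 (z.1 - a.1).1))
        ⟨d • n.2, by simpa [Prod.smul_def] using V.smul_mem d hn, by
          rw [show ((d • n.1, (0 : ℝ)) : Z × ℝ) = d • (n.1, 0) by simp, map_smul]
          simp [mul_add]⟩
      simp only [map_smul, smul_eq_mul] at this
      linarith
    have h2 := slope fun d _ => h1 d
    have h3 := slope (A := c) (B := -((z.2 - a.2) (n.1, 0) + n.2 (z.1 - a.1).1 - L n.1))
      fun d _ => by linarith [h1 (-d)]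
    show (z.2 - a.2) (n.1, 0) - L n.1 + n.2 (z.1 - a.1).1 = 0
    linarith
  obtain ⟨s, hs⟩ : ∃ s, ((z.1.1, z.2.comp (inl ℝ Z ℝ) - L), s) ∈ V := ⟨s' + sa, by
    have e : z.2.comp (inl ℝ Z ℝ) - a.2.comp (inl ℝ Z ℝ) - L + a.2.comp (inl ℝ Z ℝ)
      = z.2.comp (inl ℝ Z ℝ) - L := by abel
    simpa [e] using V.add_mem hs' a1⟩
  have h1 : ∀ t, |t - z.1.2| < ε → ∀ e ∈ N1 V, ‖e‖ < ε → ‖s false - γ t‖ ^ 2 + ‖s true‖ ^ 2
      ≤ (z.2 (0, 1) - K * t) * (z.1.2 - t) + L e := fun t ht e he heε => by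
    refine closure_minimal (t := {t | ‖s false - γ t‖ ^ 2 + ‖s true‖ ^ 2
      ≤ (z.2 (0, 1) - K * t) * (z.1.2 - t) + L e}) ?_ (isClosed_le (by fun_prop) (by fun_prop))
      ((dense_compl_singleton (1 / 2 : ℝ)).open_subset_closure_inter
        (t := {t | |t - z.1.2| < ε}) (isOpen_lt (by fun_prop) (by fun_prop)) ht)
    clear ht t
    rintro t ⟨ht, ht'⟩
    obtain ⟨p, hp⟩ := hV.2.1 (fun b => cond b 0 (γ t)) (by
      rintro (_ | _); exacts [hD t ht', D.zero_mem])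
    have b1 : z.1.1 - p.1 - e ∈ closure (N1 V : Set Z) :=
      (N1 V).topologicalClosure.sub_mem (dn hV _ _ (V.sub_mem hs hp))
        ((N1 V).le_topologicalClosure he)
    have b2 := closure_minimal (t := {y | ‖s false - γ t‖ ^ 2 + ‖s true‖ ^ 2
      ≤ (z.2 (0, 1) - K * t) * (z.1.2 - t) + L (z.1.1 - p.1 - y)}) ?_
      (isClosed_le (by fun_prop) (by fun_prop))
      ((isOpen_lt (f := fun y => ‖z.1.1 - p.1 - y‖) (g := fun _ => ε) (by fun_prop)
        (by fun_prop)).inter_closure ⟨by simpa using heε, b1⟩)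
    · simpa using b2
    rintro y ⟨hy, g, hg⟩
    have b3 : ((p.1 + y, p.2 + g), fun b => cond b 0 (γ t)) ∈ V := by
      simpa [Prod.add_def] using V.add_mem hp hg
    have b4 := hz ((p.1 + y, t), (p.2 + g).coprod ((K * t) • ContinuousLinearMap.id ℝ ℝ))
      ⟨_, by simpa using b3, t, by simp⟩ (hε (by
        rw [mem_ball', Prod.dist_eq, dist_eq_norm, ← sub_sub, Real.dist_eq, abs_sub_comm]
        exact max_lt hy ht))
    have b5 := (hV.1 _ (V.sub_mem hs b3)).2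
    have b6 : z.2 (0, z.1.2 - t) = (z.1.2 - t) * z.2 (0, 1) := by
      rw [← smul_eq_mul, ← map_smul]; simp
    rw [spl, sub_comp, sub_comp, coprod_comp_inl, coprod_comp_inr] at b4
    simp only [Prod.fst_sub, Prod.snd_sub, Pi.sub_apply, cond_true, cond_false, sub_zero,
      _root_.sub_apply, _root_.smul_apply, id_apply, smul_eq_mul, comp_apply, inr_apply, b6,
      ← sub_sub] at b4 b5
    show _ ≤ _ + L _
    linarith
  have h2 := h1 z.1.2 (by simpa using ε0)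
  have h3 := h2 0 (N1 V).zero_mem (by simpa using ε0)
  simp only [sub_self, mul_zero, map_zero, add_zero, zero_add] at h2 h3
  have d1 := sub_eq_zero.1 (z0 (s false - γ z.1.2) (by linarith [sq_nonneg ‖s true‖]))
  have d2 := z0 (s true) (by linarith [sq_nonneg ‖s false - γ z.1.2‖])
  have h4 : ∀ x ∈ N1 V, 0 ≤ L x := fun x hx => by
    have := h2 ((ε / (‖x‖ + 1)) • x) ((N1 V).smul_mem _ hx) (by
      rw [norm_smul, Real.norm_of_nonneg (by positivity), div_mul_eq_mul_div,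
        div_lt_iff₀ (by positivity)]
      simp [ε0])
    rw [map_smul, smul_eq_mul] at this
    exact nonneg_of_mul_nonneg_right (le_trans (by positivity) this) (by positivity)
  have h5 := V.add_mem hs (ann hV L fun x hx => le_antisymm
    (by simpa using h4 _ ((N1 V).neg_mem hx)) (h4 x hx))
  have h6 : ∀ η, 0 < η → |z.2 (0, 1) - K * z.1.2| ≤ 0 + η := fun η η0 => by
    obtain ⟨r, r0, r1, r2⟩ : ∃ r, 0 < r ∧ r < ε ∧ r * (K + 1) ≤ η :=
      ⟨min (ε / 2) (η / (K + 1)), by positivity, (min_le_left _ _).trans_lt (half_lt_self ε0), by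
        rw [← le_div_iff₀ (by positivity)]; exact min_le_right _ _⟩
    have b1 := (add_nonneg (sq_nonneg _) (sq_nonneg _)).trans (h1 (z.1.2 + r)
      (by simpa [abs_of_pos r0] using r1) 0 (N1 V).zero_mem (by simpa using ε0))
    have b2 := (add_nonneg (sq_nonneg _) (sq_nonneg _)).trans (h1 (z.1.2 - r)
      (by simpa [abs_of_pos r0] using r1) 0 (N1 V).zero_mem (by simpa using ε0))
    rw [map_zero] at b1 b2
    rw [abs_le]
    constructor <;> nlinarith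
  have h7 := sub_eq_zero.1 (abs_nonpos_iff.1 (le_of_forall_pos_le_add h6))
  refine ⟨s, by simpa using h5, z.1.2, ?_⟩
  congr 2
  · funext b; cases b; exacts [d1, d2]
  · ext; simpa using h7

end

theorem curve : ∃ (γ : ℝ → H) (K : ℝ), 0 ≤ K ∧ (∀ t t', ‖γ t - γ t'‖ ^ 2 ≤ K * (t - t') ^ 2) ∧
    Continuous γ ∧ (∀ t, t ≠ 1 / 2 → γ t ∈ D) ∧ γ (1 / 2) ∉ D := by
  let u := pw 1 (by norm_num)
  let k := pw (2 / 3) (by norm_num)
  have u0 : ∀ n, 0 ≤ u n := fun n => Real.rpow_nonneg (by positivity) _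
  have k0 : ∀ n, 0 < k n := fun n => Real.rpow_pos_of_pos (by positivity) _
  let γ : ℝ → H := fun t => ⟨fun n => max (u n - |t - 1 / 2| * k n) 0,
    (lp.memℓp u).mono' fun n => by
      have := mul_nonneg (abs_nonneg (t - 1 / 2)) (k0 n).le
      rw [Real.norm_of_nonneg (le_max_right _ _), Real.norm_of_nonneg (u0 n)]
      exact max_le (by linarith) (u0 n)⟩
  have h1 : ∀ t t', ‖γ t - γ t'‖ ≤ ‖k‖ * |t - t'| := fun t t' => by
    rw [mul_comm, ← Real.norm_eq_abs, ← norm_smul]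
    refine lp.norm_mono (by norm_num) fun n => (abs_max_sub_max_le_abs _ _ _).trans ?_
    show _ ≤ |(t - t') * k n|
    rw [sub_sub_sub_cancel_left, ← sub_mul, abs_mul, abs_mul]
    refine mul_le_mul_of_nonneg_right ((abs_abs_sub_abs_le_abs_sub _ _).trans ?_) (abs_nonneg _)
    rw [sub_sub_sub_cancel_right, abs_sub_comm]
  refine ⟨γ, ‖k‖ ^ 2, sq_nonneg _, fun t t' => ?_, (LipschitzWith.of_dist_le' (K := ‖k‖)
    fun t t' => by rw [dist_eq_norm]; exact h1 t t').continuous, fun t ht => ?_, fun h => nsum ?_⟩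
  · rw [← sq_abs (t - t'), ← mul_pow]
    exact pow_le_pow_left₀ (norm_nonneg _) (h1 t t') 2
  · have h2 : Tendsto (fun n : ℕ => ((n : ℝ) + 1) ^ (-(1 / 3) : ℝ)) atTop (𝓝 0) :=
      (tendsto_rpow_neg_atTop (by norm_num)).comp
        (tendsto_atTop_add_const_right _ _ tendsto_natCast_atTop_atTop)
    obtain ⟨N, hN⟩ := eventually_atTop.1 (h2.eventually (gt_mem_nhds (abs_pos.2 (sub_ne_zero.2 ht))))
    refine summable_of_ne_finset_zero (s := Finset.range N) fun n hn => max_eq_right ?_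
    have e : u n = ((n : ℝ) + 1) ^ (-(1 / 3) : ℝ) * k n :=
      Eq.trans (by norm_num; rfl) (Real.rpow_add (by positivity) _ _)
    rw [e, ← sub_mul]
    exact mul_nonpos_of_nonpos_of_nonneg (by linarith [hN n (by simpa using hn)]) (k0 n).le
  · refine Summable.congr h fun n => ?_
    show max (u n - |1 / 2 - 1 / 2| * k n) 0 = u n
    simp [u0 n]

theorem ex3 : ∃ (X : Type) (_ : NormedAddCommGroup X) (_ : NormedSpace ℝ X) (_ : CompleteSpace X)
    (G : Set (X × (X →L[ℝ] ℝ))) (l : X →L[ℝ] ℝ) (z : X),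
    (∀ a ∈ G, ∀ b ∈ G, 0 ≤ (a.2 - b.2) (a.1 - b.1)) ∧
    (∀ U : Set X, IsOpen U → ∀ a ∈ G, a.1 ∈ U → ∀ c : X × (X →L[ℝ] ℝ), c.1 ∈ U →
      (∀ b ∈ G, b.1 ∈ U → 0 ≤ (c.2 - b.2) (c.1 - b.1)) → c ∈ G) ∧
    l z = 1 / 2 ∧ (∃ a ∈ G, l a.1 = 0) ∧ (∃ a ∈ G, l a.1 = 1) ∧ ∀ a ∈ G, l a.1 ≠ 1 / 2 := by
  obtain ⟨Z, _, _, _, V, hV⟩ := iface
  obtain ⟨γ, K, K0, h1, h2, h3, h4⟩ := curve
  have h5 : ∀ t, t ≠ 1 / 2 → ∃ a ∈ LA V (M3 γ K), snd ℝ Z ℝ a.1 = t := fun t ht => by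
    obtain ⟨a, a1, a2, a3⟩ := exl hV
      (fun b => cond b 0 (γ t), t, (K * t) • ContinuousLinearMap.id ℝ ℝ) (by
        rintro (_ | _); exacts [h3 t ht, D.zero_mem])
    exact ⟨a, ⟨_, a1, t, by rw [a2, a3]⟩, a2⟩
  refine ⟨Z × ℝ, inferInstance, inferInstance, inferInstance, LA V (M3 γ K), snd ℝ Z ℝ, (0, 1 / 2),
    LA_mono hV _ ?_, fpv hV γ K K0 h2 h3, rfl, h5 0 (by norm_num), h5 1 (by norm_num), ?_⟩
  · rintro _ ⟨t, rfl⟩ _ ⟨t', rfl⟩
    have := h1 t t'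
    simp only [Q, Pi.sub_apply, cond_true, cond_false, sub_self, norm_zero, _root_.sub_apply,
      _root_.smul_apply, id_apply, smul_eq_mul]
    linarith
  · rintro a ⟨s, a1, t, a2⟩ h
    obtain ⟨rfl, a3, -⟩ := Prod.ext_iff.1 a2 |>.imp_right Prod.ext_iff.1
    obtain rfl : t = 1 / 2 := a3.symm.trans h
    exact h4 ((hV.1 _ a1).1 false)

end Pool.Agent.H.MP_826cdb_an
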